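import Mathlib

namespace Pool.Agent.H.MP_7e9602_ag

open Real

/-- the orbit of `6/5` under `x ^ 2 - 2` -/
def a : ℕ → ℚ
  | 0 => 6 / 5
  | n + 1 => a n ^ 2 - 2

theorem a_bd (n : ℕ) : -2 ≤ a n ∧ a n ≤ 2 := by
  induction n with
  | zero => simp only [a]; constructor <;> norm_num
  | succ n ih => simp only [a]; constructor <;> nlinarith [ih.1, ih.2]

theorem a_den (n : ℕ) : ∃ u : ℤ, ¬ (5 : ℤ) ∣ u ∧ a n * 5 ^ (2 ^ n) = u := by
  induction n with
  | zero => exact ⟨6, by decide, by simp only [a]; norm_num⟩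
  | succ n ih =>
    obtain ⟨u, hu, h⟩ := ih
    refine ⟨u ^ 2 - 2 * 5 ^ (2 ^ (n + 1)), fun hd => hu ?_, ?_⟩
    · have h1 : (5 : ℤ) ∣ 2 * 5 ^ (2 ^ (n + 1)) :=
        Dvd.dvd.mul_left (dvd_pow_self 5 (by positivity)) 2
      have h2 : (5 : ℤ) ∣ u ^ 2 := by simpa using dvd_add hd h1
      exact Int.Prime.dvd_pow' (p := 5) (by norm_num) h2
    · simp only [a]
      push_cast
      rw [← h, pow_succ 2 n, pow_mul]
      ring

theorem a_ne (n p : ℕ) (hp : 0 < p) : a (n + p) ≠ a n := by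
  intro h
  obtain ⟨u, hu, h1⟩ := a_den (n + p)
  obtain ⟨v, -, h2⟩ := a_den n
  have hlt : 2 ^ n < 2 ^ (n + p) := Nat.pow_lt_pow_right (by norm_num) (by omega)
  obtain ⟨e, he⟩ := Nat.exists_eq_add_of_lt hlt
  apply hu
  refine ⟨v * 5 ^ e, ?_⟩
  have : (u : ℚ) = 5 * (v * 5 ^ e) := by
    rw [← h1, ← h2, h, he]
    ring
  exact_mod_cast this

/-- the angle -/
noncomputable def th (x : ℝ) : ℝ := arccos (x / 2)

theorem th_pos (x : ℝ) (h0 : 0 ≤ x) (h2 : x ≤ 2) : th (x ^ 2 - 2) = 2 * th x := by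
  unfold th
  have h1 : arccos (x / 2) ≤ π / 2 := arccos_le_pi_div_two.mpr (by linarith)
  have h3 : 0 ≤ arccos (x / 2) := arccos_nonneg _
  rw [← arccos_cos (x := 2 * arccos (x / 2)) (by linarith) (by linarith), cos_two_mul,
    cos_arccos (by linarith) (by linarith)]
  congr 1
  ring

theorem th_neg (x : ℝ) (h0 : x ≤ 0) (h2 : -2 ≤ x) : th (x ^ 2 - 2) = 2 * (π - th x) := by
  have h1 := th_pos (-x) (by linarith) (by linarith)
  rw [neg_sq] at h1
  rw [h1]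
  unfold th
  rw [neg_div, arccos_neg]

theorem step (n m : ℕ) (h : 0 ≤ a n ↔ 0 ≤ a m) :
    |th (a (n + 1)) - th (a (m + 1))| = 2 * |th (a n) - th (a m)| := by
  have hn := a_bd n
  have hm := a_bd m
  simp only [a]
  push_cast
  by_cases h0 : 0 ≤ a n
  · rw [th_pos _ (by exact_mod_cast h0) (by exact_mod_cast hn.2),
      th_pos _ (by exact_mod_cast h.mp h0) (by exact_mod_cast hm.2), ← mul_sub, abs_mul]
    norm_num
  · have h1 : ¬ 0 ≤ a m := fun h1 => h0 (h.mpr h1)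
    push Not at h0 h1
    rw [th_neg _ (by exact_mod_cast h0.le) (by exact_mod_cast hn.1),
      th_neg _ (by exact_mod_cast h1.le) (by exact_mod_cast hm.1), ← mul_sub, abs_mul,
      show π - th (a n) - (π - th (a m)) = -(th (a n) - th (a m)) by ring, abs_neg]
    norm_num

theorem not_per (N p : ℕ) (hp : 0 < p) (h : ∀ n, N ≤ n → (0 ≤ a n ↔ 0 ≤ a (n + p))) : False := by
  have key : ∀ j : ℕ, |th (a (N + j)) - th (a (N + j + p))| =
      2 ^ j * |th (a N) - th (a (N + p))| := by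
    intro j
    induction j with
    | zero => simp
    | succ j ih =>
      rw [← add_assoc, show N + j + 1 + p = N + j + p + 1 by ring,
        step _ _ (h _ (by omega)), ih]
      ring
  have bd : ∀ x y : ℝ, |th x - th y| ≤ π := by
    intro x y
    unfold th
    rw [abs_le]
    constructor <;> linarith [arccos_nonneg (x / 2), arccos_nonneg (y / 2), arccos_le_pi (x / 2),
      arccos_le_pi (y / 2)]
  have h0 : |th (a N) - th (a (N + p))| = 0 := by
    by_contra hne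
    have hpos : 0 < |th (a N) - th (a (N + p))| := lt_of_le_of_ne (abs_nonneg _) (Ne.symm hne)
    obtain ⟨j, hj⟩ := pow_unbounded_of_one_lt (π / |th (a N) - th (a (N + p))|)
      (one_lt_two (α := ℝ))
    rw [div_lt_iff₀ hpos, ← key] at hj
    exact absurd (bd _ _) (not_le.mpr hj)
  rw [abs_eq_zero, sub_eq_zero] at h0
  have h1 := congrArg cos h0
  unfold th at h1
  have hn := a_bd N
  have hm := a_bd (N + p)
  have hn1 : (-2 : ℝ) ≤ a N := by exact_mod_cast hn.1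
  have hn2 : (a N : ℝ) ≤ 2 := by exact_mod_cast hn.2
  have hm1 : (-2 : ℝ) ≤ a (N + p) := by exact_mod_cast hm.1
  have hm2 : (a (N + p) : ℝ) ≤ 2 := by exact_mod_cast hm.2
  rw [cos_arccos (by linarith) (by linarith), cos_arccos (by linarith) (by linarith)] at h1
  have h2 : (a (N + p) : ℝ) = a N := by linarith
  exact a_ne N p hp (by exact_mod_cast h2)

theorem per_of_aps (A : Finset (ℕ × ℕ)) : ∃ N p : ℕ, 0 < p ∧ ∀ n, N ≤ n →
    ((∃ c ∈ A, ∃ k, n = c.1 + k * c.2) ↔ ∃ c ∈ A, ∃ k, n + p = c.1 + k * c.2) := by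
  refine ⟨(∑ c ∈ A, c.1) + 1, ∏ c ∈ A, max c.2 1,
    Finset.prod_pos fun c _ => by omega, fun n hn => ?_⟩
  refine exists_congr fun c => and_congr_right fun hc => ?_
  have h1 : c.1 ≤ ∑ c ∈ A, c.1 := Finset.single_le_sum (f := fun c => c.1) (by simp) hc
  obtain ⟨q, hq⟩ : max c.2 1 ∣ ∏ c ∈ A, max c.2 1 := Finset.dvd_prod_of_mem _ hc
  rw [hq]
  rcases Nat.eq_zero_or_pos c.2 with h0 | h0
  · rw [h0]
    constructor
    · rintro ⟨k, hk⟩; omega
    · rintro ⟨k, hk⟩; omega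
  · rw [max_eq_left h0]
    constructor
    · rintro ⟨k, hk⟩
      exact ⟨k + q, by rw [hk]; ring⟩
    · rintro ⟨k, hk⟩
      have h2 : q ≤ k := by
        by_contra h3
        have h4 : (k + 1) * c.2 ≤ q * c.2 := Nat.mul_le_mul_right _ (by omega)
        nlinarith
      obtain ⟨r, rfl⟩ := Nat.exists_eq_add_of_le h2
      exact ⟨r, by nlinarith⟩

theorem not_aps : ¬ ∃ A : Finset (ℕ × ℕ), ∀ n, 0 ≤ a n ↔ ∃ c ∈ A, ∃ k, n = c.1 + k * c.2 := by
  rintro ⟨A, hA⟩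
  obtain ⟨N, p, hp, h⟩ := per_of_aps A
  exact not_per N p hp fun n hn => by rw [hA, hA]; exact h n hn

theorem four (x : ℚ) (hx : 0 ≤ x) : ∃ q : ℚ, q ≠ 0 ∧ ∃ b c d e : ℚ,
    x * q ^ 2 = b ^ 2 + c ^ 2 + d ^ 2 + e ^ 2 := by
  obtain ⟨b, c, d, e, h⟩ := Nat.sum_four_squares (x.num.toNat * x.den)
  refine ⟨x.den, by exact_mod_cast x.den_nz, b, c, d, e, ?_⟩
  have h1 : ((x.num.toNat : ℤ) : ℚ) = x.num := by
    rw [Int.toNat_of_nonneg (Rat.num_nonneg.mpr hx)]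
  have h2 : ((b ^ 2 + c ^ 2 + d ^ 2 + e ^ 2 : ℕ) : ℚ) = (x.num.toNat * x.den : ℕ) := by rw [h]
  push_cast at h1 h2
  rw [h2, h1, ← Rat.mul_den_eq_num]
  ring

end Pool.Agent.H.MP_7e9602_ag
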