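import Mathlib
import Pool.Agent.H.MP_7e9602_ag.Dyn

namespace Pool.Agent.H.MP_7e9602_ag

open MvPolynomial Sum

abbrev V := Fin 5 ⊕ Fin 2

/-- the hypersurface equation -/
noncomputable def Phi (K : Type) [CommRing K] : MvPolynomial V K :=
  X (inl 0) ^ 2 * X (inr 0) +
    -(X (inr 1) * (X (inl 1) ^ 2 + X (inl 2) ^ 2 + X (inl 3) ^ 2 + X (inl 4) ^ 2))

theorem map_Phi (K L : Type) [CommRing K] [CommRing L] (φ : K →+* L) :
    MvPolynomial.map φ (Phi K) = Phi L := by
  simp [Phi]

theorem irr_Phi (K : Type) [Field K] : Irreducible (Phi K) := by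
  classical
  refine irreducible_mul_X_add _ _ _ (pow_ne_zero _ (X_ne_zero _)) ?_ ?_ ?_
  · intro h
    have := vars_pow _ _ h
    simp at this
  · intro h
    rw [vars_neg] at h
    have h1 := vars_mul _ _ h
    rw [Finset.mem_union] at h1
    rcases h1 with h1 | h1
    · simp at h1
    · have hp : ∀ i : Fin 5, (inr 0 : V) ∉ (X (inl i) ^ 2 : MvPolynomial V K).vars := by
        intro i h
        have := vars_pow _ _ h
        simp at this
      have h2 := vars_add_subset _ _ h1
      rw [Finset.mem_union] at h2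
      rcases h2 with h2 | h2
      · have h3 := vars_add_subset _ _ h2
        rw [Finset.mem_union] at h3
        rcases h3 with h3 | h3
        · have h4 := vars_add_subset _ _ h3
          rw [Finset.mem_union] at h4
          rcases h4 with h4 | h4
          · exact hp _ h4
          · exact hp _ h4
        · exact hp _ h3
      · exact hp _ h2
  · refine IsRelPrime.pow_left ?_
    rw [(X_prime (i := (inl 0 : V)) (R := K)).irreducible.isRelPrime_iff_not_dvd]
    rintro ⟨c, hc⟩
    have := congrArg (eval (Sum.elim ![0, 1, 0, 0, 0] ![0, 1])) hc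
    simp at this

/-- components of the self-map of the ambient space -/
noncomputable def FF : V → MvPolynomial V ℚ :=
  Sum.elim ![X (inl 0) ^ 2, X (inl 1) ^ 2 - C 2 * X (inl 2) ^ 2, X (inl 2) ^ 2, X (inl 3) ^ 2,
    X (inl 4) ^ 2] ![X (inr 0) ^ 2, X (inr 1) ^ 2]

/-- components of the self-map of the hypersurface -/
noncomputable def GG : V → MvPolynomial V ℚ :=
  Sum.elim ![0, X (inr 0), X (inr 1), 0, 0] ![1, 0]

/-- the bigrading -/
def w : V → ℕ × ℕ := Sum.elim (fun _ => (1, 0)) (fun _ => (0, 1))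

theorem hx (i : Fin 5) : IsWeightedHomogeneous w (X (inl i) ^ 2 : MvPolynomial V ℚ) (2, 0) :=
  (isWeightedHomogeneous_X ℚ w (inl i)).pow 2

theorem hy (i : Fin 2) : IsWeightedHomogeneous w (X (inr i) : MvPolynomial V ℚ) (0, 1) :=
  isWeightedHomogeneous_X ℚ w (inr i)

theorem Phi_hom : IsWeightedHomogeneous w (Phi ℚ) (2, 1) :=
  ((hx 0).mul (hy 0)).add ((hy 1).mul ((((hx 1).add (hx 2)).add (hx 3)).add (hx 4))).neg

theorem FF_l (i : Fin 5) : IsWeightedHomogeneous w (FF (inl i)) (2, 0) := by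
  fin_cases i
  · exact hx 0
  · exact (hx 1).sub ((hx 2).C_mul 2)
  · exact hx 2
  · exact hx 3
  · exact hx 4

theorem FF_r (i : Fin 2) : IsWeightedHomogeneous w (FF (inr i)) (0, 2) := by
  fin_cases i
  · exact (hy 0).pow 2
  · exact (hy 1).pow 2

theorem GG_l (i : Fin 5) : IsWeightedHomogeneous w (GG (inl i)) (0, 1) := by
  fin_cases i
  · exact isWeightedHomogeneous_zero ℚ w _
  · exact hy 0
  · exact hy 1
  · exact isWeightedHomogeneous_zero ℚ w _
  · exact isWeightedHomogeneous_zero ℚ w _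

theorem GG_r (i : Fin 2) : IsWeightedHomogeneous w (GG (inr i)) (0, 0) := by
  fin_cases i
  · exact isWeightedHomogeneous_one ℚ w
  · exact isWeightedHomogeneous_zero ℚ w _

section
variable {K : Type} [Field K] [Algebra ℚ K]

theorem FF_l_ne (v : V → K) (hv : (fun i => v (inl i)) ≠ 0) :
    (fun i => aeval v (FF (inl i))) ≠ 0 := by
  intro h
  apply hv
  have h0 := congrFun h 0
  have h1 := congrFun h 1
  have h2 := congrFun h 2
  have h3 := congrFun h 3
  have h4 := congrFun h 4
  simp [FF] at h0 h1 h2 h3 h4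
  simp [h2] at h1
  ext i
  fin_cases i <;> simp [h0, h1, h2, h3, h4]

theorem FF_r_ne (v : V → K) (hv : (fun i => v (inr i)) ≠ 0) :
    (fun i => aeval v (FF (inr i))) ≠ 0 := by
  intro h
  apply hv
  have h0 := congrFun h 0
  have h1 := congrFun h 1
  simp [FF] at h0 h1
  ext i
  fin_cases i <;> simp [h0, h1]

theorem GG_l_ne (v : V → K) (hv : (fun i => v (inr i)) ≠ 0) :
    (fun i => aeval v (GG (inl i))) ≠ 0 := by
  intro h
  apply hv
  have h1 := congrFun h 1
  have h2 := congrFun h 2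
  simp [GG] at h1 h2
  ext i
  fin_cases i <;> simp [h1, h2]

theorem GG_r_ne (v : V → K) : (fun i => aeval v (GG (inr i))) ≠ 0 := by
  intro h
  have h0 := congrFun h 0
  simp [GG] at h0

theorem GG_Phi (v : V → K) : aeval (fun s => aeval v (GG s)) (Phi ℚ) = 0 := by
  simp [Phi, GG]

end

abbrev XX := Projectivization ℚ (Fin 5 → ℚ) × Projectivization ℚ (Fin 2 → ℚ)

/-- homogeneous coordinates -/
noncomputable def co (p : XX) : V → ℚ := Sum.elim p.1.rep p.2.rep

/-- the self-map of the ambient space -/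
noncomputable def ff (p : XX) : XX :=
  (Projectivization.mk ℚ _ (FF_l_ne (co p) p.1.rep_nonzero),
    Projectivization.mk ℚ _ (FF_r_ne (co p) p.2.rep_nonzero))

/-- the self-map of the hypersurface -/
noncomputable def gg (p : XX) : XX :=
  (Projectivization.mk ℚ _ (GG_l_ne (co p) p.2.rep_nonzero),
    Projectivization.mk ℚ _ (GG_r_ne (co p)))

theorem ne1 (x : ℚ) : (![0, x, 1, 0, 0] : Fin 5 → ℚ) ≠ 0 := fun h => by simpa using congrFun h 2

theorem ne2 : (![1, 0] : Fin 2 → ℚ) ≠ 0 := fun h => by simpa using congrFun h 0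

/-- points of the invariant line -/
def pt (x : ℚ) : XX := (Projectivization.mk ℚ _ (ne1 x), Projectivization.mk ℚ _ ne2)

theorem ff_pt (x : ℚ) : ff (pt x) = pt (x ^ 2 - 2) := by
  obtain ⟨c, hc⟩ := Projectivization.exists_smul_eq_mk_rep ℚ _ (ne1 x)
  obtain ⟨d, hd⟩ := Projectivization.exists_smul_eq_mk_rep ℚ _ ne2
  refine Prod.ext ?_ ?_
  · simp only [ff, pt, co]
    rw [Projectivization.mk_eq_mk_iff']
    refine ⟨(c : ℚ) ^ 2, ?_⟩
    ext i
    simp only [← hc]
    fin_cases i <;> simp [FF, Units.smul_def]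
    ring
  · simp only [ff, pt, co]
    rw [Projectivization.mk_eq_mk_iff']
    refine ⟨(d : ℚ) ^ 2, ?_⟩
    ext i
    simp only [← hd]
    fin_cases i <;> simp [FF, Units.smul_def]

theorem iter (n : ℕ) : ff^[n] (pt (6 / 5)) = pt (a n) := by
  induction n with
  | zero => rfl
  | succ n ih => rw [Function.iterate_succ_apply', ih, ff_pt]; rfl

theorem val (x : ℚ) : (∃ z, aeval (co z) (Phi ℚ) = 0 ∧ pt x = gg z) ↔ 0 ≤ x := by
  constructor
  · rintro ⟨⟨y, s⟩, hz, h⟩
    have h1 := congrArg Prod.fst h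
    simp only [pt, gg] at h1
    rw [Projectivization.mk_eq_mk_iff'] at h1
    obtain ⟨c, hc⟩ := h1
    have e1 := congrFun hc 1
    have e2 := congrFun hc 2
    simp [GG, co] at e1 e2
    simp [Phi, co] at hz
    have hq : y.rep 0 ^ 2 * x = y.rep 1 ^ 2 + y.rep 2 ^ 2 + y.rep 3 ^ 2 + y.rep 4 ^ 2 := by
      linear_combination c * hz - y.rep 0 ^ 2 * e1 +
        (y.rep 1 ^ 2 + y.rep 2 ^ 2 + y.rep 3 ^ 2 + y.rep 4 ^ 2) * e2
    by_contra hx
    push Not at hx
    have s0 := sq_nonneg (y.rep 0)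
    have s1 := sq_nonneg (y.rep 1)
    have s2 := sq_nonneg (y.rep 2)
    have s3 := sq_nonneg (y.rep 3)
    have s4 := sq_nonneg (y.rep 4)
    have s5 : y.rep 0 ^ 2 * x ≤ 0 := mul_nonpos_of_nonneg_of_nonpos s0 hx.le
    have z1 : y.rep 1 = 0 := pow_eq_zero_iff (two_ne_zero) |>.mp (by linarith)
    have z2 : y.rep 2 = 0 := pow_eq_zero_iff (two_ne_zero) |>.mp (by linarith)
    have z3 : y.rep 3 = 0 := pow_eq_zero_iff (two_ne_zero) |>.mp (by linarith)
    have z4 : y.rep 4 = 0 := pow_eq_zero_iff (two_ne_zero) |>.mp (by linarith)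
    have z0 : y.rep 0 = 0 := by
      have : y.rep 0 ^ 2 * x = 0 := by rw [hq, z1, z2, z3, z4]; ring
      exact pow_eq_zero_iff (two_ne_zero) |>.mp ((mul_eq_zero.mp this).resolve_right hx.ne)
    apply y.rep_nonzero
    ext i
    fin_cases i <;> simp [z0, z1, z2, z3, z4]
  · intro hx
    obtain ⟨q, hq, b, c, d, e, h⟩ := four x hx
    have n1 : (![q, b, c, d, e] : Fin 5 → ℚ) ≠ 0 := fun h => hq (by simpa using congrFun h 0)
    have n2 : (![x, 1] : Fin 2 → ℚ) ≠ 0 := fun h => by simpa using congrFun h 1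
    obtain ⟨s, hs⟩ := Projectivization.exists_smul_eq_mk_rep ℚ _ n1
    obtain ⟨t, ht⟩ := Projectivization.exists_smul_eq_mk_rep ℚ _ n2
    refine ⟨(Projectivization.mk ℚ _ n1, Projectivization.mk ℚ _ n2), ?_, Prod.ext ?_ ?_⟩
    · simp only [co, ← hs, ← ht]
      simp [Phi, Units.smul_def]
      linear_combination (s : ℚ) ^ 2 * t * h
    · simp only [pt, gg, co]
      symm
      rw [Projectivization.mk_eq_mk_iff']
      refine ⟨t, ?_⟩
      ext i
      simp only [← ht]
      fin_cases i <;> simp [GG, Units.smul_def]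
    · simp only [pt, gg, co]
      rw [Projectivization.mk_eq_mk_iff']
      refine ⟨1, ?_⟩
      ext i
      fin_cases i <;> simp [GG]

end Pool.Agent.H.MP_7e9602_ag
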